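import Mathlib
import Pool.Agent.TH978.GRWProd

/-!
The zero-one law for the event `B` (the greedy random walk returns to its start at least once)
fails. Part 1: on an infinite connected locally finite vertex-transitive graph of even degree that
has a cycle and has a finite edge cut of odd size, the return probability lies strictly between
zero and one, and infinitely many returns have probability zero. Part 2: this applies to the
Cartesian product of the two-way infinite path with any finite connected vertex-transitive graph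
with an odd number (at least three) of vertices, e.g. with a triangle.
-/

open MeasureTheory Finset SimpleGraph Pool.Agent.H575R3.GRW
open scoped ENNReal

namespace Pool.Agent.Results.MP_3fb035_pr.ReturnLawFails

theorem result :
    -- Part 1: general criterion
    (∀ (V : Type) (_ : DecidableEq V) (_ : Infinite V) (G : SimpleGraph V) (_ : G.LocallyFinite),
      G.Connected → (∀ u v : V, ∃ φ : G ≃g G, φ u = v) → (∀ v, Even (G.degree v)) →
      ¬ G.IsAcyclic →
      (∃ (S : Set V) (E : Finset (V × V)), (∀ a, a ∈ E ↔ G.Adj a.1 a.2 ∧ a.1 ∈ S ∧ a.2 ∉ S) ∧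
        Odd E.card) →
      ∀ (o : V) (Ω : Type) (_ : MeasurableSpace Ω) (P : Measure Ω) (X : ℕ → Ω → V),
        IsGRW G o P X →
          0 < P {ω | ∃ t, 1 ≤ t ∧ X t ω = o} ∧ P {ω | ∃ t, 1 ≤ t ∧ X t ω = o} < 1 ∧
          P {ω | ∀ n, ∃ t, n ≤ t ∧ X t ω = o} = 0) ∧
    -- Part 2: the product of the two-way infinite path with a finite graph of odd order
    (∀ (W : Type) (_ : Fintype W) (_ : DecidableEq W) (_ : Nontrivial W) (H : SimpleGraph W),
      H.Connected → (∀ u v : W, ∃ ψ : H ≃g H, ψ u = v) → Odd (Fintype.card W) →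
      ∃ _ : (hasse ℤ □ H).LocallyFinite,
        (hasse ℤ □ H).Connected ∧
        (∀ u v : ℤ × W, ∃ φ : (hasse ℤ □ H) ≃g (hasse ℤ □ H), φ u = v) ∧
        ∀ o : ℤ × W,
          (∃ (_ : MeasurableSpace (ℕ → ℤ × W)) (P : Measure (ℕ → ℤ × W)),
            IsGRW (hasse ℤ □ H) o P (fun t ω => ω t)) ∧
          ∀ (Ω : Type) (_ : MeasurableSpace Ω) (P : Measure Ω) (X : ℕ → Ω → ℤ × W),
            IsGRW (hasse ℤ □ H) o P X →
              0 < P {ω | ∃ t, 1 ≤ t ∧ X t ω = o} ∧ P {ω | ∃ t, 1 ≤ t ∧ X t ω = o} < 1 ∧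
              P {ω | ∀ n, ∃ t, n ≤ t ∧ X t ω = o} = 0) := by
  have key : ∀ {V Ω : Type} [MeasurableSpace Ω] {P : Measure Ω} {X : ℕ → Ω → V} {o : V},
      P Set.univ = 1 → P {ω | ∃ t, 1 ≤ t ∧ X t ω = o} ≠ 1 →
        P {ω | ∃ t, 1 ≤ t ∧ X t ω = o} < 1 := by
    intro V Ω _ P X o hP h1
    refine lt_of_le_of_ne ?_ h1
    rw [← hP]
    exact measure_mono (Set.subset_univ _)
  have p2 : (∀ (W : Type) (_ : Fintype W) (_ : DecidableEq W) (_ : Nontrivial W)
      (H : SimpleGraph W),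
      H.Connected → (∀ u v : W, ∃ ψ : H ≃g H, ψ u = v) → Odd (Fintype.card W) →
      ∃ _ : (hasse ℤ □ H).LocallyFinite,
        (hasse ℤ □ H).Connected ∧
        (∀ u v : ℤ × W, ∃ φ : (hasse ℤ □ H) ≃g (hasse ℤ □ H), φ u = v) ∧
        ∀ o : ℤ × W,
          (∃ (_ : MeasurableSpace (ℕ → ℤ × W)) (P : Measure (ℕ → ℤ × W)),
            IsGRW (hasse ℤ □ H) o P (fun t ω => ω t)) ∧
          ∀ (Ω : Type) (_ : MeasurableSpace Ω) (P : Measure Ω) (X : ℕ → Ω → ℤ × W),
            IsGRW (hasse ℤ □ H) o P X →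
              0 < P {ω | ∃ t, 1 ≤ t ∧ X t ω = o} ∧ P {ω | ∃ t, 1 ≤ t ∧ X t ω = o} < 1 ∧
              P {ω | ∀ n, ∃ t, n ≤ t ∧ X t ω = o} = 0) := by
    intro W _ _ _ H hc ht ho
    obtain ⟨lf, h1, h2, h3⟩ := TH978.GRWProd.product H hc ht ho
    refine ⟨lf, h1, h2, fun o => ⟨(h3 o).1, ?_⟩⟩
    intro Ω _ P X h
    obtain ⟨a, b, c⟩ := (h3 o).2 Ω _ P X h
    exact ⟨pos_iff_ne_zero.mpr a, key h.prob b, c⟩
  refine ⟨?_, p2⟩
  rintro V _ _ G _ hc ht he hcyc ⟨S, E, hE, hodd⟩ o Ω _ P X h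
  obtain ⟨a, b, c⟩ := TH978.GRWCut.criterion h hc ht he hcyc S E hE hodd
  exact ⟨pos_iff_ne_zero.mpr a, key h.prob b, c⟩

end Pool.Agent.Results.MP_3fb035_pr.ReturnLawFails
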